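import Pool.Agent.helper52.HY.Spec

set_option autoImplicit false

open Complex Metric Set Filter Topology
open HY (UD T S)

noncomputable section

namespace MMX

theorem OSI_den {a x : ℂ} (ha : ‖a‖ < 1) (hx : ‖x‖ < 1) : 1 - (starRingEnd ℂ) a * x ≠ 0 := by
  intro h
  have h1 : (starRingEnd ℂ) a * x = 1 := by linear_combination -h
  have h2 : ‖a‖ * ‖x‖ = 1 := by
    rw [← Complex.norm_conj a, ← norm_mul, h1, norm_one]
  nlinarith [norm_nonneg a, norm_nonneg x]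

/-- distance between images under `S b`. -/
theorem OSI_inv {b p q : ℂ} (hb : ‖b‖ < 1) (hp : ‖p‖ < 1) (hq : ‖q‖ < 1) :
    ‖T (S b p) (S b q)‖ = ‖T p q‖ := by
  have d1 : 1 + (starRingEnd ℂ) b * p ≠ 0 := by
    have := OSI_den (a := -b) (x := p) (by rwa [norm_neg]) hp
    simpa [map_neg] using this
  have d2 : 1 + (starRingEnd ℂ) b * q ≠ 0 := by
    have := OSI_den (a := -b) (x := q) (by rwa [norm_neg]) hq
    simpa [map_neg] using this
  have d3 := OSI_den hp hq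
  have d1' : 1 + b * (starRingEnd ℂ) p ≠ 0 := by
    intro h
    apply d1
    have := congrArg (starRingEnd ℂ) h
    simpa [map_add, map_mul, map_one, map_zero] using this
  have hb2 : (1 : ℂ) - (starRingEnd ℂ) b * b ≠ 0 := OSI_den hb hb
  have e : T (S b p) (S b q) = ((1 + b * (starRingEnd ℂ) p) / (1 + (starRingEnd ℂ) b * p)) * T p q := by
    unfold T S
    rw [map_div₀, map_add, map_add, map_mul, map_one, Complex.conj_conj]
    have n1 : (q + b) / (1 + (starRingEnd ℂ) b * q) - (p + b) / (1 + (starRingEnd ℂ) b * p) =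
        (q - p) * (1 - (starRingEnd ℂ) b * b) / ((1 + (starRingEnd ℂ) b * q) * (1 + (starRingEnd ℂ) b * p)) := by
      rw [div_sub_div _ _ d2 d1]
      congr 1
      ring
    have n2 : 1 - ((starRingEnd ℂ) p + (starRingEnd ℂ) b) / (1 + b * (starRingEnd ℂ) p) *
        ((q + b) / (1 + (starRingEnd ℂ) b * q)) = (1 - (starRingEnd ℂ) b * b) * (1 - (starRingEnd ℂ) p * q) /
        ((1 + b * (starRingEnd ℂ) p) * (1 + (starRingEnd ℂ) b * q)) := by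
      rw [div_mul_div_comm, eq_div_iff (mul_ne_zero d1' d2), sub_mul, one_mul, div_mul_cancel₀ _ (mul_ne_zero d1' d2)]
      ring
    rw [n1, n2, div_div_div_eq, div_mul_div_comm, div_eq_div_iff
      (mul_ne_zero (mul_ne_zero d2 d1) (mul_ne_zero hb2 d3)) (mul_ne_zero d1 d3)]
    ring
  rw [e, norm_mul, norm_div]
  have e2 : ‖1 + b * (starRingEnd ℂ) p‖ = ‖1 + (starRingEnd ℂ) b * p‖ := by
    rw [← Complex.norm_conj (1 + b * (starRingEnd ℂ) p)]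
    simp [map_add, map_mul]
  rw [e2, div_self (norm_ne_zero_iff.mpr d1), one_mul]

theorem OSI_sym {p q : ℂ} : ‖T p q‖ = ‖T q p‖ := by
  unfold T
  rw [norm_div, norm_div, norm_sub_rev]
  congr 1
  rw [← Complex.norm_conj (1 - (starRingEnd ℂ) p * q)]
  simp [map_sub, map_mul, mul_comm]

theorem OSI_prod {n : ℕ} (hn : 0 < n) {w e : ℂ} :
    ‖T (e ^ n) (w ^ n)‖ = ∏ z ∈ Polynomial.nthRootsFinset n (1 : ℂ), ‖T (z * e) w‖ := by
  have hpr := Complex.isPrimitiveRoot_exp n hn.ne'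
  have h1 := hpr.pow_sub_pow_eq_prod_sub_mul w e hn
  have h2 := hpr.pow_sub_pow_eq_prod_sub_mul 1 (e * (starRingEnd ℂ) w) hn
  have hT : ∀ a x : ℂ, ‖T a x‖ = ‖x - a‖ / ‖1 - a * (starRingEnd ℂ) x‖ := by
    intro a x
    unfold T
    rw [norm_div]
    congr 1
    rw [← Complex.norm_conj (1 - (starRingEnd ℂ) a * x)]
    simp [map_sub, map_mul]
  rw [hT, h1, norm_prod]
  simp only [hT]
  rw [Finset.prod_div_distrib]
  congr 1
  have h3 : 1 - e ^ n * (starRingEnd ℂ) (w ^ n) = 1 ^ n - (e * (starRingEnd ℂ) w) ^ n := by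
    rw [one_pow, mul_pow, map_pow]
  rw [h3, h2, norm_prod]
  refine Finset.prod_congr rfl fun z _ => ?_
  rw [mul_assoc]

/-- ONE STEP IDENTITY. -/
theorem OSI {n : ℕ} (hn : 0 < n) {b w e : ℂ} (hb : ‖b‖ < 1) (hw : ‖w‖ < 1) (he : ‖e‖ < 1)
    (hne : w ^ n ≠ e ^ n) :
    -Real.log ‖T (S b (w ^ n)) (S b (e ^ n))‖ =
      ∑ z ∈ Polynomial.nthRootsFinset n (1 : ℂ), -Real.log ‖T w (z * e)‖ := by
  have hwn : ‖w ^ n‖ < 1 := by rw [norm_pow]; exact pow_lt_one₀ (norm_nonneg _) hw hn.ne'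
  have hen : ‖e ^ n‖ < 1 := by rw [norm_pow]; exact pow_lt_one₀ (norm_nonneg _) he hn.ne'
  rw [OSI_inv hb hwn hen, OSI_sym, OSI_prod hn, Real.log_prod]
  · rw [← Finset.sum_neg_distrib]
    exact Finset.sum_congr rfl fun z _ => by rw [OSI_sym]
  · intro z hz
    have hzn : z ^ n = 1 := (Polynomial.mem_nthRootsFinset hn 1).mp hz
    have hz1 : ‖z‖ = 1 := Complex.norm_eq_one_of_pow_eq_one hzn hn.ne'
    unfold T
    rw [norm_div]
    refine div_ne_zero (norm_ne_zero_iff.mpr ?_) (norm_ne_zero_iff.mpr ?_)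
    · intro h
      apply hne
      have : w = z * e := by linear_combination h
      rw [this, mul_pow, hzn, one_mul]
    · exact OSI_den (by rw [norm_mul, hz1, one_mul]; exact he) hw

theorem OSI_tsq {x p : ℂ} (hx : ‖x‖ < 1) (hp : ‖p‖ < 1) :
    1 - ‖T x p‖ ^ 2 = (1 - ‖x‖ ^ 2) * (1 - ‖p‖ ^ 2) / ‖1 - (starRingEnd ℂ) x * p‖ ^ 2 := by
  have hd := OSI_den hx hp
  have hd2 : ‖1 - (starRingEnd ℂ) x * p‖ ^ 2 ≠ 0 := pow_ne_zero 2 (norm_ne_zero_iff.mpr hd)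
  unfold T
  rw [norm_div, div_pow, eq_div_iff hd2, sub_mul, div_mul_cancel₀ _ hd2, one_mul]
  rw [← Complex.normSq_eq_norm_sq, ← Complex.normSq_eq_norm_sq, ← Complex.normSq_eq_norm_sq,
    ← Complex.normSq_eq_norm_sq]
  simp only [Complex.normSq_apply, sub_re, sub_im, mul_re, mul_im, conj_re, conj_im, one_re, one_im]
  ring

/-- Green function bound. -/
theorem OSI_grn {x p : ℂ} (hx : ‖x‖ < 1) (hp : ‖p‖ < 1) (hne : x ≠ p) :
    -Real.log ‖T x p‖ ≤ (1 - ‖x‖ ^ 2) * (1 - ‖p‖ ^ 2) / (2 * ‖x - p‖ ^ 2) := by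
  have hd := OSI_den hx hp
  have hd2 : 0 < ‖1 - (starRingEnd ℂ) x * p‖ ^ 2 := pow_pos (norm_pos_iff.mpr hd) 2
  have hn2 : 0 < ‖x - p‖ ^ 2 := pow_pos (norm_pos_iff.mpr (sub_ne_zero.mpr hne)) 2
  have hT2 : ‖T x p‖ ^ 2 = ‖x - p‖ ^ 2 / ‖1 - (starRingEnd ℂ) x * p‖ ^ 2 := by
    unfold T
    rw [norm_div, div_pow, norm_sub_rev]
  have hT0 : 0 < ‖T x p‖ ^ 2 := by rw [hT2]; positivity
  have h1 := OSI_tsq hx hp
  have h2 : Real.log (‖T x p‖ ^ 2) = 2 * Real.log ‖T x p‖ := by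
    rw [Real.log_pow]; norm_num
  have h3 : 1 - (‖T x p‖ ^ 2)⁻¹ ≤ Real.log (‖T x p‖ ^ 2) := Real.one_sub_inv_le_log_of_pos hT0
  have h4 : (‖T x p‖ ^ 2)⁻¹ - 1 = (1 - ‖x‖ ^ 2) * (1 - ‖p‖ ^ 2) / ‖x - p‖ ^ 2 := by
    have : (‖T x p‖ ^ 2)⁻¹ - 1 = (1 - ‖T x p‖ ^ 2) / ‖T x p‖ ^ 2 := by
      rw [sub_div, div_self hT0.ne', inv_eq_one_div]
    rw [this, h1, hT2]
    field_simp
  have h5 : (1 - ‖x‖ ^ 2) * (1 - ‖p‖ ^ 2) / (2 * ‖x - p‖ ^ 2) =
      ((1 - ‖x‖ ^ 2) * (1 - ‖p‖ ^ 2) / ‖x - p‖ ^ 2) / 2 := by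
    rw [div_div, mul_comm 2]
  rw [h5, ← h4]
  linarith

/-- ONE STEP LOSS: the other preimages. -/
theorem OSL (n : ℕ) (hn : 0 < n) : ∃ C : ℝ, 0 < C ∧ ∀ x e : ℂ, 1 / 2 ≤ ‖x‖ → ‖x‖ < 1 → e ≠ 0 → ‖e‖ < 1 →
    (∀ z ∈ Polynomial.nthRootsFinset n (1 : ℂ), ‖x - e‖ ≤ ‖x - z * e‖) →
    ∑ z ∈ (Polynomial.nthRootsFinset n (1 : ℂ)).erase 1, -Real.log ‖T x (z * e)‖ ≤
      C * (-Real.log ‖x‖) * (-Real.log ‖e‖) := by
  -- the minimal distance of 1 to the other roots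
  have hsep : ∃ s : ℝ, 0 < s ∧ s ≤ 1 ∧ ∀ z ∈ (Polynomial.nthRootsFinset n (1 : ℂ)).erase 1, s ≤ ‖1 - z‖ := by
    rcases ((Polynomial.nthRootsFinset n (1 : ℂ)).erase 1).eq_empty_or_nonempty with h | h
    · refine ⟨1, one_pos, le_rfl, ?_⟩
      rw [h]; simp
    · obtain ⟨z0, hz0, hmin⟩ := Finset.exists_min_image _ (fun z : ℂ => ‖1 - z‖) h
      have h0 : 0 < ‖1 - z0‖ := norm_pos_iff.mpr (sub_ne_zero.mpr (Finset.ne_of_mem_erase hz0).symm)
      exact ⟨min 1 ‖1 - z0‖, lt_min one_pos h0, min_le_left _ _, fun z hz => (min_le_right _ _).trans (hmin z hz)⟩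
  obtain ⟨s, hs0, hs1, hs⟩ := hsep
  refine ⟨n * (2 * (64 / s ^ 2)), by positivity, ?_⟩
  intro x e hx1 hx2 he0 he1 hmin
  have hlx : 1 - ‖x‖ ^ 2 ≤ 2 * (-Real.log ‖x‖) := by
    have h0 : 0 < ‖x‖ := by linarith
    have h1 : Real.log (‖x‖ ^ 2) ≤ ‖x‖ ^ 2 - 1 := Real.log_le_sub_one_of_pos (by positivity)
    rw [Real.log_pow] at h1
    push_cast at h1
    linarith
  have hle : 1 - ‖e‖ ^ 2 ≤ 2 * (-Real.log ‖e‖) := by
    have h0 : 0 < ‖e‖ := norm_pos_iff.mpr he0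
    have h1 : Real.log (‖e‖ ^ 2) ≤ ‖e‖ ^ 2 - 1 := Real.log_le_sub_one_of_pos (by positivity)
    rw [Real.log_pow] at h1
    push_cast at h1
    linarith
  have hx0' : 0 ≤ 1 - ‖x‖ ^ 2 := by nlinarith [norm_nonneg x]
  have he0' : 0 ≤ 1 - ‖e‖ ^ 2 := by nlinarith [norm_nonneg e]
  have hone : ∀ z ∈ (Polynomial.nthRootsFinset n (1 : ℂ)).erase 1,
      -Real.log ‖T x (z * e)‖ ≤ 2 * (64 / s ^ 2) * ((-Real.log ‖x‖) * (-Real.log ‖e‖)) := by
    intro z hz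
    have hzr := Finset.mem_of_mem_erase hz
    have hzn : z ^ n = 1 := (Polynomial.mem_nthRootsFinset hn 1).mp hzr
    have hz1 : ‖z‖ = 1 := Complex.norm_eq_one_of_pow_eq_one hzn hn.ne'
    have hze : ‖z * e‖ = ‖e‖ := by rw [norm_mul, hz1, one_mul]
    -- lower bound for the distance
    have hd : s / 8 ≤ ‖x - z * e‖ := by
      have h1 : ‖e - z * e‖ ≤ 2 * ‖x - z * e‖ := by
        have : e - z * e = (x - z * e) - (x - e) := by ring
        rw [this]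
        refine (norm_sub_le _ _).trans ?_
        linarith [hmin z hzr]
      have h2 : ‖e - z * e‖ = ‖1 - z‖ * ‖e‖ := by
        rw [← norm_mul]; congr 1; ring
      have h3 := hs z hz
      rcases le_total (1 / 4) ‖e‖ with h4 | h4
      · have h5 : s * (1 / 4) ≤ ‖1 - z‖ * ‖e‖ := mul_le_mul h3 h4 (by norm_num) (norm_nonneg _)
        rw [h2] at h1
        linarith
      · have h5 : ‖x‖ - ‖z * e‖ ≤ ‖x - z * e‖ := norm_sub_norm_le _ _
        rw [hze] at h5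
        linarith
    have hd0 : 0 < ‖x - z * e‖ := lt_of_lt_of_le (by positivity) hd
    have hne : x ≠ z * e := by
      intro h
      rw [← h, sub_self, norm_zero] at hd0
      exact lt_irrefl _ hd0
    have hg := OSI_grn hx2 (by rw [hze]; exact he1) hne
    rw [hze] at hg
    refine hg.trans ?_
    have h6 : (s / 8) ^ 2 ≤ ‖x - z * e‖ ^ 2 := by gcongr
    have h7 : (1 - ‖x‖ ^ 2) * (1 - ‖e‖ ^ 2) ≤ (2 * (-Real.log ‖x‖)) * (2 * (-Real.log ‖e‖)) :=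
      mul_le_mul hlx hle he0' (hx0'.trans hlx)
    rw [div_le_iff₀ (by positivity)]
    have h8 : 0 ≤ (-Real.log ‖x‖) * (-Real.log ‖e‖) := by
      have a1 : 0 ≤ -Real.log ‖x‖ := by linarith
      have a2 : 0 ≤ -Real.log ‖e‖ := by linarith
      exact mul_nonneg a1 a2
    have h9 : 2 * (64 / s ^ 2) * ((-Real.log ‖x‖) * (-Real.log ‖e‖)) * (2 * (s / 8) ^ 2) =
        4 * ((-Real.log ‖x‖) * (-Real.log ‖e‖)) := by
      field_simp
      ring
    have h10 : 2 * (64 / s ^ 2) * ((-Real.log ‖x‖) * (-Real.log ‖e‖)) * (2 * (s / 8) ^ 2) ≤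
        2 * (64 / s ^ 2) * ((-Real.log ‖x‖) * (-Real.log ‖e‖)) * (2 * ‖x - z * e‖ ^ 2) := by
      refine mul_le_mul_of_nonneg_left (by linarith) ?_
      positivity
    linarith
  refine (Finset.sum_le_sum hone).trans ?_
  rw [Finset.sum_const, nsmul_eq_mul]
  have hcard : (((Polynomial.nthRootsFinset n (1 : ℂ)).erase 1).card : ℝ) ≤ n := by
    have h1 := Finset.card_erase_le (s := Polynomial.nthRootsFinset n (1 : ℂ)) (a := 1)
    have h2 : (Polynomial.nthRootsFinset n (1 : ℂ)).card = n :=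
      (Complex.isPrimitiveRoot_exp n hn.ne').card_nthRootsFinset
    exact_mod_cast h1.trans h2.le
  have h8 : 0 ≤ 2 * (64 / s ^ 2) * ((-Real.log ‖x‖) * (-Real.log ‖e‖)) := by
    have a1 : 0 ≤ -Real.log ‖x‖ := by linarith
    have a2 : 0 ≤ -Real.log ‖e‖ := by linarith
    positivity
  calc _ ≤ (n : ℝ) * (2 * (64 / s ^ 2) * ((-Real.log ‖x‖) * (-Real.log ‖e‖))) :=
        mul_le_mul_of_nonneg_right hcard h8
    _ = _ := by ring

end MMX
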